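import Pool.Agent.U503.KC.Set

set_option autoImplicit false
set_option linter.unusedSectionVars false

/-!
# A cluster with spherical interfaces meeting according to Plateau's laws which is not stable

One cell is the union of a ball of radius `3` around the origin and a ball of radius `2` around a
point at distance `10`; the other cell is the region between the spheres of radius `3` and `6` around
the origin.  The three interfaces are three disjoint round spheres.  Moving volume between the two
components of the first cell lowers the area to second order.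
-/

open Set Filter Topology Metric MeasureTheory
open scoped ContDiff ENNReal NNReal Pointwise RealInnerProductSpace

namespace Pool.Agent.Results.MP_5bdae7_gt.DisconnectedCellUnstable

/-- Euclidean space of dimension three. -/
abbrev E3 : Type := EuclideanSpace ℝ (Fin 3)

/-- A cluster: finitely many pairwise disjoint open sets of finite positive volume. -/
structure Cluster (k : ℕ) where
  cell : Fin k → Set E3
  isOpen : ∀ i, IsOpen (cell i)
  disjoint : ∀ i j, i ≠ j → Disjoint (cell i) (cell j)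
  vol_pos : ∀ i, 0 < volume (cell i)
  vol_lt : ∀ i, volume (cell i) < ⊤

/-- The regions of a cluster: its cells, and (index `none`) the complement of the closure of their
union. -/
def Cluster.region {k : ℕ} (Ω : Cluster k) : Option (Fin k) → Set E3
  | some i => Ω.cell i
  | none => (closure (⋃ i, Ω.cell i))ᶜ

/-- The interface of two regions is the intersection of their boundaries. -/
def Cluster.interface {k : ℕ} (Ω : Cluster k) (i j : Option (Fin k)) : Set E3 :=
  frontier (Ω.region i) ∩ frontier (Ω.region j)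

/-- The union of the interfaces of distinct regions. -/
def Cluster.surface {k : ℕ} (Ω : Cluster k) : Set E3 :=
  {x | ∃ i j, i ≠ j ∧ x ∈ Ω.interface i j}

/-- Each interface of two distinct regions is contained in a round sphere or a plane. -/
def Cluster.Spherical {k : ℕ} (Ω : Cluster k) : Prop :=
  ∀ i j, i ≠ j → (∃ (c : E3) (r : ℝ), 0 < r ∧ Ω.interface i j ⊆ sphere c r) ∨
    (∃ (n : E3) (a : ℝ), ‖n‖ = 1 ∧ Ω.interface i j ⊆ {x | ⟪n, x⟫ = a})

/-- The open sector of the points whose inner product with `v i` is larger than that with the other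
vectors. -/
def sector {m : ℕ} (v : Fin m → E3) (i : Fin m) : Set E3 :=
  {y | ∀ l, l ≠ i → ⟪v l, y⟫ < ⟪v i, y⟫}

/-- The common boundary of the sectors: the points where the maximum of the inner products with the
`v i` is attained at least twice.  For the vertices of a regular simplex this is a plane (`m = 2`),
three half planes meeting at 120 degrees (`m = 3`), the cone over the edges of a regular tetrahedron
(`m = 4`). -/
def cone {m : ℕ} (v : Fin m → E3) : Set E3 :=
  {y | ∃ i j, i ≠ j ∧ ⟪v i, y⟫ = ⟪v j, y⟫ ∧ ∀ l, ⟪v l, y⟫ ≤ ⟪v i, y⟫}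

/-- Plateau's laws: near each point of the surface there are `m = 2`, `3` or `4` distinct regions, and
a smooth chart, tangent to the identity, takes them to the sectors of the vertices of a regular simplex
and the surface to their common boundary. -/
def Cluster.Plateau {k : ℕ} (Ω : Cluster k) : Prop :=
  ∀ x ∈ Ω.surface, ∃ (m : ℕ) (v : Fin m → E3) (ρ : Fin m → Option (Fin k)) (Φ : E3 → E3),
    2 ≤ m ∧ m ≤ 4 ∧ (∀ i, ‖v i‖ = 1) ∧ (∀ i j, i ≠ j → ⟪v i, v j⟫ = -1 / ((m : ℝ) - 1)) ∧
    Function.Injective ρ ∧ ContDiff ℝ ∞ Φ ∧ Φ x = 0 ∧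
    HasFDerivAt Φ (ContinuousLinearMap.id ℝ E3) x ∧
    ∀ᶠ y in 𝓝 x, (y ∈ Ω.surface ↔ Φ y ∈ cone v) ∧ ∀ i, (y ∈ Ω.region (ρ i) ↔ Φ y ∈ sector v i)

/-- Near `x` the sets `U` and `V` are the inside and the outside of a sphere of radius `r`, and
`H = 2 / r`. -/
def SphereSep (U V : Set E3) (x : E3) (H : ℝ) : Prop :=
  ∃ (c : E3) (r : ℝ), 0 < r ∧ H = 2 / r ∧
    ∀ᶠ y in 𝓝 x, (y ∈ U ↔ dist y c < r) ∧ (y ∈ V ↔ r < dist y c)

/-- Near `x` the sets `U` and `V` are the two sides of a plane. -/
def PlaneSep (U V : Set E3) (x : E3) : Prop :=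
  ∃ n : E3, ‖n‖ = 1 ∧ ∀ᶠ y in 𝓝 x, (y ∈ U ↔ ⟪n, y - x⟫ < 0) ∧ (y ∈ V ↔ 0 < ⟪n, y - x⟫)

/-- The Young-Laplace law: there is one pressure for each region such that, at the points of an
interface not in the closure of a third region, the difference of the pressures is the sum of the
principal curvatures. -/
def Cluster.YoungLaplace {k : ℕ} (Ω : Cluster k) : Prop :=
  ∃ p : Option (Fin k) → ℝ, ∀ i j, i ≠ j → ∀ x ∈ Ω.interface i j,
    (∀ l, l ≠ i → l ≠ j → x ∉ closure (Ω.region l)) →
    SphereSep (Ω.region i) (Ω.region j) x (p i - p j) ∨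
    SphereSep (Ω.region j) (Ω.region i) x (p j - p i) ∨
    (p i = p j ∧ PlaneSep (Ω.region i) (Ω.region j) x)

/-- A smooth one-parameter family of diffeomorphisms of space, equal to the identity at time `0` and
outside a compact set. -/
structure Deformation where
  toFun : ℝ → E3 → E3
  smooth : ContDiff ℝ ∞ fun p : ℝ × E3 => toFun p.1 p.2
  zero : ∀ x, toFun 0 x = x
  bijective : ∀ t, Function.Bijective (toFun t)
  invertible : ∀ t x, ∃ A : E3 ≃L[ℝ] E3, HasFDerivAt (toFun t) (A : E3 →L[ℝ] E3) x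
  support : ∃ R : ℝ, ∀ t x, R ≤ ‖x‖ → toFun t x = x

/-- The family keeps the volume of each cell fixed. -/
def Cluster.VolumePreserving {k : ℕ} (Ω : Cluster k) (φ : Deformation) : Prop :=
  ∀ t i, volume (φ.toFun t '' Ω.cell i) = volume (Ω.cell i)

/-- The area of the deformed cluster: the two-dimensional Hausdorff measure of the image of the
surface. -/
noncomputable def Cluster.area {k : ℕ} (Ω : Cluster k) (φ : Deformation) (t : ℝ) : ℝ≥0∞ :=
  μH[2] (φ.toFun t '' Ω.surface)

/-! ### the example -/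

open Pool.Agent.U503.KC in
/-- the cluster of the example -/
noncomputable def Om : Cluster 2 where
  cell := ![cA, cR]
  isOpen := by
    intro i
    fin_cases i
    · exact isOpen_cA
    · exact isOpen_cR
  disjoint := by
    have h : Disjoint cA cR := by
      rw [Set.disjoint_left]
      intro x hx hx'
      rw [mem_cA] at hx
      rw [mem_cR] at hx'
      have := dist_c0 x
      rcases hx with hx | hx <;> linarith [hx'.1, hx'.2]
    intro i j hij
    fin_cases i <;> fin_cases j
    · exact absurd rfl hij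
    · exact h
    · exact h.symm
    · exact absurd rfl hij
  vol_pos := by
    intro i
    have hs : Small 0 := by
      obtain ⟨η, hη, h⟩ := exists_small
      exact h 0 (by rw [abs_zero]; exact hη.le)
    have e : ∀ s : Set E3, Psi 0 '' s = s := fun s => by
      rw [show Psi 0 = id from funext Psi_zero, image_id]
    fin_cases i
    · have := vol_cA 0 hs
      rw [e] at this
      change 0 < volume cA
      rw [this]
      exact ENNReal.mul_pos (by norm_num) V1_pos.ne'
    · have := vol_cR 0 hs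
      rw [e] at this
      change 0 < volume cR
      rw [this]
      exact ENNReal.mul_pos (by norm_num) V1_pos.ne'
  vol_lt := by
    intro i
    have hs : Small 0 := by
      obtain ⟨η, hη, h⟩ := exists_small
      exact h 0 (by rw [abs_zero]; exact hη.le)
    have e : ∀ s : Set E3, Psi 0 '' s = s := fun s => by
      rw [show Psi 0 = id from funext Psi_zero, image_id]
    fin_cases i
    · have := vol_cA 0 hs
      rw [e] at this
      change volume cA < ⊤
      rw [this]
      exact ENNReal.mul_lt_top (by norm_num) V1_lt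
    · have := vol_cR 0 hs
      rw [e] at this
      change volume cR < ⊤
      rw [this]
      exact ENNReal.mul_lt_top (by norm_num) V1_lt

open Pool.Agent.U503.KC

lemma region_none : Om.region none = cE := by
  have h : (⋃ i, Om.cell i) = cA ∪ cR := by
    ext x
    rw [mem_iUnion, Fin.exists_fin_two]
    rfl
  change (closure (⋃ i, Om.cell i))ᶜ = cE
  rw [h, closure_cells]

lemma region_zero : Om.region (some 0) = cA := rfl
lemma region_one : Om.region (some 1) = cR := rfl

lemma disj {x : E3} : ¬ (dist x 0 = 3 ∧ dist x 0 = 6) ∧ ¬ (dist x 0 = 3 ∧ dist x c0 = 2) ∧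
    ¬ (dist x 0 = 6 ∧ dist x c0 = 2) := by
  have := dist_c0 x
  refine ⟨?_, ?_, ?_⟩ <;> rintro ⟨h, h'⟩ <;> linarith

lemma int01 : frontier cA ∩ frontier cR = sphere 0 3 := by
  ext x
  rw [frontier_cA, frontier_cR]
  simp only [mem_inter_iff, mem_union, mem_sphere]
  have := disj (x := x)
  tauto

lemma int0n : frontier cA ∩ frontier cE = sphere c0 2 := by
  ext x
  rw [frontier_cA, frontier_cE]
  simp only [mem_inter_iff, mem_union, mem_sphere]
  have := disj (x := x)
  tauto

lemma int1n : frontier cR ∩ frontier cE = sphere 0 6 := by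
  ext x
  rw [frontier_cR, frontier_cE]
  simp only [mem_inter_iff, mem_union, mem_sphere]
  have := disj (x := x)
  tauto

lemma cases3 (i : Option (Fin 2)) : i = some 0 ∨ i = some 1 ∨ i = none := by
  rcases i with _ | i
  · exact Or.inr (Or.inr rfl)
  · fin_cases i
    · exact Or.inl rfl
    · exact Or.inr (Or.inl rfl)

/-- the interfaces of the example -/
lemma interface_eq {i j : Option (Fin 2)} (hij : i ≠ j) :
    ((i = some 0 ∧ j = some 1) ∨ (i = some 1 ∧ j = some 0)) ∧ Om.interface i j = sphere 0 3 ∨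
    ((i = some 0 ∧ j = none) ∨ (i = none ∧ j = some 0)) ∧ Om.interface i j = sphere c0 2 ∨
    ((i = some 1 ∧ j = none) ∨ (i = none ∧ j = some 1)) ∧ Om.interface i j = sphere 0 6 := by
  rcases cases3 i with rfl | rfl | rfl <;> rcases cases3 j with rfl | rfl | rfl
  · exact absurd rfl hij
  · left
    exact ⟨Or.inl ⟨rfl, rfl⟩, int01⟩
  · right; left
    refine ⟨Or.inl ⟨rfl, rfl⟩, ?_⟩
    rw [Cluster.interface, region_none]
    exact int0n
  · left
    exact ⟨Or.inr ⟨rfl, rfl⟩, by rw [Cluster.interface, inter_comm]; exact int01⟩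
  · exact absurd rfl hij
  · right; right
    refine ⟨Or.inl ⟨rfl, rfl⟩, ?_⟩
    rw [Cluster.interface, region_none]
    exact int1n
  · right; left
    refine ⟨Or.inr ⟨rfl, rfl⟩, ?_⟩
    rw [Cluster.interface, region_none, inter_comm]
    exact int0n
  · right; right
    refine ⟨Or.inr ⟨rfl, rfl⟩, ?_⟩
    rw [Cluster.interface, region_none, inter_comm]
    exact int1n
  · exact absurd rfl hij

lemma mem_surf {x : E3} : x ∈ surf ↔ dist x 0 = 3 ∨ dist x 0 = 6 ∨ dist x c0 = 2 := by
  rw [surf, mem_union, mem_union, mem_sphere, mem_sphere, mem_sphere, or_assoc]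

lemma surface_eq : Om.surface = surf := by
  ext x
  rw [mem_surf]
  constructor
  · rintro ⟨i, j, hij, hx⟩
    rcases interface_eq hij with ⟨_, h⟩ | ⟨_, h⟩ | ⟨_, h⟩ <;> rw [h, mem_sphere] at hx
    · exact Or.inl hx
    · exact Or.inr (Or.inr hx)
    · exact Or.inr (Or.inl hx)
  · rintro (h | h | h)
    · refine ⟨some 0, some 1, by simp, ?_⟩
      have : Om.interface (some 0) (some 1) = sphere 0 3 := int01
      rw [this]
      exact h
    · refine ⟨some 1, none, by simp, ?_⟩
      rw [Cluster.interface, region_none]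
      have : frontier (Om.region (some 1)) ∩ frontier cE = sphere 0 6 := int1n
      rw [this]
      exact h
    · refine ⟨some 0, none, by simp, ?_⟩
      rw [Cluster.interface, region_none]
      have : frontier (Om.region (some 0)) ∩ frontier cE = sphere c0 2 := int0n
      rw [this]
      exact h

lemma spherical : Om.Spherical := by
  intro i j hij
  left
  rcases interface_eq hij with ⟨_, h⟩ | ⟨_, h⟩ | ⟨_, h⟩
  · exact ⟨0, 3, by norm_num, h.subset⟩
  · exact ⟨c0, 2, by norm_num, h.subset⟩
  · exact ⟨0, 6, by norm_num, h.subset⟩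

/-- the chart at a point of a sphere -/
lemma chart {k : ℕ} (Ω : Cluster k) {x c : E3} {r : ℝ} (hr : 0 < r) (hx : dist x c = r)
    {i j : Option (Fin k)} (hij : i ≠ j)
    (h : ∀ᶠ y in 𝓝 x, (y ∈ Ω.surface ↔ dist y c = r) ∧ (y ∈ Ω.region i ↔ r < dist y c) ∧
      (y ∈ Ω.region j ↔ dist y c < r)) :
    ∃ (m : ℕ) (v : Fin m → E3) (ρ : Fin m → Option (Fin k)) (Φ : E3 → E3),
    2 ≤ m ∧ m ≤ 4 ∧ (∀ i, ‖v i‖ = 1) ∧ (∀ i j, i ≠ j → ⟪v i, v j⟫ = -1 / ((m : ℝ) - 1)) ∧
    Function.Injective ρ ∧ ContDiff ℝ ∞ Φ ∧ Φ x = 0 ∧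
    HasFDerivAt Φ (ContinuousLinearMap.id ℝ E3) x ∧
    ∀ᶠ y in 𝓝 x, (y ∈ Ω.surface ↔ Φ y ∈ cone v) ∧
      ∀ i, (y ∈ Ω.region (ρ i) ↔ Φ y ∈ sector v i) := by
  have hx' : ‖x - c‖ = r := by rw [← dist_eq_norm, hx]
  obtain ⟨n, hn⟩ : ∃ n : E3, n = r⁻¹ • (x - c) := ⟨_, rfl⟩
  have hn1 : ‖n‖ = 1 := by
    rw [hn, norm_smul, norm_inv, Real.norm_of_nonneg hr.le, hx', inv_mul_cancel₀ hr.ne']
  have hnn : ⟪n, n⟫ = (1 : ℝ) := by rw [real_inner_self_eq_norm_sq, hn1]; norm_num
  set q : E3 → ℝ := fun y => (‖y - c‖ ^ 2 - r ^ 2) / (2 * r) with hq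
  set Φ : E3 → E3 := fun y => (y - x) - ⟪n, y - x⟫ • n + q y • n with hΦ
  have hin : ∀ y, ⟪n, Φ y⟫ = q y := by
    intro y
    simp only [hΦ]
    rw [inner_add_right, inner_sub_right, inner_smul_right, inner_smul_right, hnn]
    ring
  have hqlt : ∀ y, q y < 0 ↔ dist y c < r := by
    intro y
    rw [hq, dist_eq_norm]
    simp only
    rw [div_neg_iff]
    constructor
    · rintro (⟨_, h2⟩ | ⟨h1, _⟩)
      · linarith
      · exact lt_of_pow_lt_pow_left₀ 2 hr.le (by linarith)
    · intro h1
      right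
      exact ⟨by nlinarith [norm_nonneg (y - c)], by linarith⟩
  have hqgt : ∀ y, 0 < q y ↔ r < dist y c := by
    intro y
    rw [hq, dist_eq_norm]
    simp only
    rw [div_pos_iff]
    constructor
    · rintro (⟨h1, _⟩ | ⟨_, h2⟩)
      · exact lt_of_pow_lt_pow_left₀ 2 (norm_nonneg _) (by linarith)
      · linarith
    · intro h1
      left
      exact ⟨by nlinarith [norm_nonneg (y - c)], by linarith⟩
  have hq0 : ∀ y, q y = 0 ↔ dist y c = r := by
    intro y
    have h1 := hqlt y
    have h2 := hqgt y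
    constructor
    · intro h3
      have h4 : ¬ dist y c < r := fun h => by linarith [h1.2 h]
      have h5 : ¬ r < dist y c := fun h => by linarith [h2.2 h]
      linarith [not_lt.1 h4, not_lt.1 h5]
    · intro h3
      have h4 : ¬ q y < 0 := fun h => by linarith [h1.1 h]
      have h5 : ¬ 0 < q y := fun h => by linarith [h2.1 h]
      linarith [not_lt.1 h4, not_lt.1 h5]
  have hqd : HasFDerivAt q (innerSL ℝ n) x := by
    have h1 : HasFDerivAt (fun y : E3 => ‖y - c‖ ^ 2) (2 • (innerSL ℝ (x - c))) x := by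
      have := (hasFDerivAt_id x).sub_const c |>.norm_sq
      simpa using this
    have h2 := (h1.sub_const (r ^ 2)).const_smul ((2 * r)⁻¹)
    have e1 : q = fun y => (2 * r)⁻¹ • (‖y - c‖ ^ 2 - r ^ 2) := by
      funext y
      rw [hq, smul_eq_mul]
      simp only
      rw [div_eq_inv_mul]
    have e2 : innerSL ℝ n = (2 * r)⁻¹ • (2 • (innerSL ℝ (x - c))) := by
      ext y
      rw [hn]
      simp only [_root_.smul_apply, innerSL_apply_apply, inner_smul_left,
        smul_eq_mul, nsmul_eq_mul]
      simp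
      field_simp
    rw [e1, e2]
    exact h2
  have hΦd : HasFDerivAt Φ (ContinuousLinearMap.id ℝ E3) x := by
    have h1 : HasFDerivAt (fun y : E3 => y - x) (ContinuousLinearMap.id ℝ E3) x :=
      (hasFDerivAt_id x).sub_const x
    have h2 : HasFDerivAt (fun y : E3 => ⟪n, y - x⟫) (innerSL ℝ n) x := by
      have := (innerSL ℝ n).hasFDerivAt.comp x h1
      simpa [Function.comp_def] using this
    have h3 := (h1.sub (h2.smul_const n)).add (hqd.smul_const n)
    rw [sub_add_cancel] at h3
    exact h3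
  refine ⟨2, ![n, -n], ![i, j], Φ, le_refl _, by norm_num, ?_, ?_, ?_, ?_, ?_, hΦd, ?_⟩
  · intro a
    fin_cases a
    · exact hn1
    · change ‖-n‖ = 1
      rw [norm_neg, hn1]
  · intro a b hab
    fin_cases a <;> fin_cases b
    · exact absurd rfl hab
    · change ⟪n, -n⟫ = _
      rw [inner_neg_right, hnn]
      norm_num
    · change ⟪-n, n⟫ = _
      rw [inner_neg_left, hnn]
      norm_num
    · exact absurd rfl hab
  · intro a b hab
    fin_cases a <;> fin_cases b
    · rfl
    · exact absurd hab hij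
    · exact absurd hab.symm hij
    · rfl
  · have h1 : ContDiff ℝ ∞ fun y : E3 => y - x := contDiff_id.sub contDiff_const
    have h2 : ContDiff ℝ ∞ fun y : E3 => ‖y - c‖ ^ 2 := (contDiff_id.sub contDiff_const).norm_sq ℝ
    exact (h1.sub ((contDiff_const.inner ℝ h1).smul contDiff_const)).add
      (((h2.sub contDiff_const).div_const _).smul contDiff_const)
  · simp only [hΦ, sub_self, inner_zero_right, zero_smul, zero_add]
    rw [(hq0 x).2 hx, zero_smul]
  · filter_upwards [h] with y hy
    have hs0 : Φ y ∈ sector ![n, -n] 0 ↔ 0 < q y := by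
      constructor
      · intro h
        have := h 1 (by decide)
        change ⟪-n, Φ y⟫ < ⟪n, Φ y⟫ at this
        rw [inner_neg_left, hin] at this
        linarith
      · intro h l hl
        fin_cases l
        · exact absurd rfl hl
        · change ⟪-n, Φ y⟫ < ⟪n, Φ y⟫
          rw [inner_neg_left, hin]
          linarith
    have hs1 : Φ y ∈ sector ![n, -n] 1 ↔ q y < 0 := by
      constructor
      · intro h
        have := h 0 (by decide)
        change ⟪n, Φ y⟫ < ⟪-n, Φ y⟫ at this
        rw [inner_neg_left, hin] at this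
        linarith
      · intro h l hl
        fin_cases l
        · change ⟪n, Φ y⟫ < ⟪-n, Φ y⟫
          rw [inner_neg_left, hin]
          linarith
        · exact absurd rfl hl
    have hc : Φ y ∈ cone ![n, -n] ↔ q y = 0 := by
      constructor
      · rintro ⟨a, b, hab, h1, _⟩
        have h2 : ⟪n, Φ y⟫ = ⟪-n, Φ y⟫ := by
          fin_cases a <;> fin_cases b
          · exact absurd rfl hab
          · exact h1
          · exact h1.symm
          · exact absurd rfl hab
        rw [inner_neg_left, hin] at h2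
        linarith
      · intro h
        have h2 : ⟪n, Φ y⟫ = ⟪-n, Φ y⟫ := by
          rw [inner_neg_left, hin, h, neg_zero]
        refine ⟨0, 1, by decide, h2, fun l => ?_⟩
        fin_cases l
        · exact le_refl _
        · exact h2.symm.le
    refine ⟨by rw [hy.1, hc, hq0], fun a => ?_⟩
    fin_cases a
    · change y ∈ Ω.region i ↔ Φ y ∈ sector ![n, -n] 0
      rw [hy.2.1, hs0, hqgt]
    · change y ∈ Ω.region j ↔ Φ y ∈ sector ![n, -n] 1
      rw [hy.2.2, hs1, hqlt]

lemma plateau : Om.Plateau := by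
  intro x hx
  rw [surface_eq, mem_surf] at hx
  rcases hx with hx | hx | hx
  · refine chart Om (i := some 1) (j := some 0) (by norm_num) hx (by simp) ?_
    filter_upwards [near3 hx, ev_lt (show dist x 0 < 4 by linarith)] with y hy hy'
    have h0 := dist_c0 y
    refine ⟨?_, hy.2.1, hy.1⟩
    rw [surface_eq, mem_surf]
    constructor
    · rintro (h | h | h)
      · exact h
      · linarith
      · linarith
    · exact Or.inl
  · refine chart Om (i := none) (j := some 1) (by norm_num) hx (by simp) ?_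
    filter_upwards [near6 hx, ev_lt (show dist x 0 < 7 by linarith),
      ev_gt (show 5 < dist x 0 by linarith)] with y hy hy' hy''
    have h0 := dist_c0 y
    rw [region_none]
    refine ⟨?_, hy.2.1, hy.1⟩
    rw [surface_eq, mem_surf]
    constructor
    · rintro (h | h | h)
      · linarith
      · exact h
      · linarith
    · exact fun h => Or.inr (Or.inl h)
  · refine chart Om (i := none) (j := some 0) (by norm_num) hx (by simp) ?_
    filter_upwards [near2 hx, ev_lt (show dist x c0 < 3 by linarith)] with y hy hy'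
    have h0 := dist_c0 y
    rw [region_none]
    refine ⟨?_, hy.2.1, hy.1⟩
    rw [surface_eq, mem_surf]
    constructor
    · rintro (h | h | h)
      · linarith
      · linarith
      · exact h
    · exact fun h => Or.inr (Or.inr h)

/-- the pressures -/
noncomputable def pr : Option (Fin 2) → ℝ
  | some i => ![1, 1 / 3] i
  | none => 0

lemma youngLaplace : Om.YoungLaplace := by
  have a01 : ∀ x : E3, dist x 0 = 3 → SphereSep (Om.region (some 0)) (Om.region (some 1)) x
      (pr (some 0) - pr (some 1)) := by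
    intro x hx
    refine ⟨0, 3, by norm_num, ?_, (near3 hx).mono fun y hy => ⟨hy.1, hy.2.1⟩⟩
    change (1 : ℝ) - 1 / 3 = 2 / 3
    norm_num
  have a0n : ∀ x : E3, dist x c0 = 2 → SphereSep (Om.region (some 0)) (Om.region none) x
      (pr (some 0) - pr none) := by
    intro x hx
    rw [region_none]
    refine ⟨c0, 2, by norm_num, ?_, (near2 hx).mono fun y hy => ⟨hy.1, hy.2.1⟩⟩
    change (1 : ℝ) - 0 = 2 / 2
    norm_num
  have a1n : ∀ x : E3, dist x 0 = 6 → SphereSep (Om.region (some 1)) (Om.region none) x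
      (pr (some 1) - pr none) := by
    intro x hx
    rw [region_none]
    refine ⟨0, 6, by norm_num, ?_, (near6 hx).mono fun y hy => ⟨hy.1, hy.2.1⟩⟩
    change (1 / 3 : ℝ) - 0 = 2 / 6
    norm_num
  refine ⟨pr, fun i j hij x hx _ => ?_⟩
  rcases interface_eq hij with ⟨h1, h⟩ | ⟨h1, h⟩ | ⟨h1, h⟩ <;> rw [h, mem_sphere] at hx
  · rcases h1 with ⟨rfl, rfl⟩ | ⟨rfl, rfl⟩
    · exact Or.inl (a01 x hx)
    · exact Or.inr (Or.inl (a01 x hx))
  · rcases h1 with ⟨rfl, rfl⟩ | ⟨rfl, rfl⟩
    · exact Or.inl (a0n x hx)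
    · exact Or.inr (Or.inl (a0n x hx))
  · rcases h1 with ⟨rfl, rfl⟩ | ⟨rfl, rfl⟩
    · exact Or.inl (a1n x hx)
    · exact Or.inr (Or.inl (a1n x hx))

/-! ### the deformation -/

lemma abs_le_eta {η : ℝ} (hη : 0 < η) (t : ℝ) : |η * Real.sin t| ≤ η := by
  rw [abs_mul, abs_of_pos hη]
  exact mul_le_of_le_one_right hη.le (Real.abs_sin_le_one t)

lemma smooth_rpow {X : Type*} [NormedAddCommGroup X] [NormedSpace ℝ X] {g : X → ℝ} (a p : ℝ)
    (hg : ContDiff ℝ ∞ g) (h : ∀ x, 1 + g x * a ≠ 0) :
    ContDiff ℝ ∞ fun x => (1 + g x * a) ^ p :=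
  (contDiff_const.add (hg.mul contDiff_const)).rpow_const_of_ne h

/-- the family of diffeomorphisms -/
noncomputable def defo (η : ℝ) (hη : 0 < η) (hs : ∀ σ : ℝ, |σ| ≤ η → Small σ) : Deformation where
  toFun t := Psi (η * Real.sin t)
  smooth := by
    have hσ : ContDiff ℝ ∞ fun p : ℝ × E3 => η * Real.sin p.1 :=
      contDiff_const.mul (Real.contDiff_sin.comp contDiff_fst)
    have hlt : ∀ t : ℝ, |η * Real.sin t| < 1 := fun t => (hs _ (abs_le_eta hη t)).one
    have eR : ContDiff ℝ ∞ fun p : ℝ × E3 => lR (η * Real.sin p.1) := by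
      have := smooth_rpow (1 / 216) (1 / 3) hσ fun p => by
        have := abs_lt.1 (hlt p.1)
        nlinarith
      simpa only [lR, div_eq_mul_inv, one_mul] using this
    have eA : ContDiff ℝ ∞ fun p : ℝ × E3 => lA (η * Real.sin p.1) := by
      have := smooth_rpow (1 / 27) (1 / 3) hσ fun p => by
        have := abs_lt.1 (hlt p.1)
        nlinarith
      simpa only [lA, div_eq_mul_inv, one_mul] using this
    have eB : ContDiff ℝ ∞ fun p : ℝ × E3 => lB (η * Real.sin p.1) := by
      have := smooth_rpow (-(1 / 8)) (1 / 3) hσ fun p => by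
        have := abs_lt.1 (hlt p.1)
        nlinarith
      simpa only [lB, div_eq_mul_inv, one_mul, mul_neg, ← sub_eq_add_neg] using this
    have eM : ContDiff ℝ ∞ fun p : ℝ × E3 => lM (η * Real.sin p.1) :=
      eA.div eR fun p => (lR_pos (hlt p.1)).ne'
    have step : ∀ (c : E3) (f : ContDiffBump c) (μ : ℝ × E3 → ℝ) (g : ℝ × E3 → E3),
        ContDiff ℝ ∞ μ → ContDiff ℝ ∞ g → ContDiff ℝ ∞ fun p => psi c f (μ p) (g p) := by
      intro c f μ g hμ hg
      exact hg.add ((hμ.sub contDiff_const).smul ((rad_smooth f).comp hg))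
    exact step _ _ _ _ eB (step _ _ _ _ eR (step _ _ _ _ eM contDiff_snd))
  zero := by
    intro x
    rw [Real.sin_zero, mul_zero, Psi_zero]
  bijective t := (hs _ (abs_le_eta hη t)).bij
  invertible t x := (hs _ (abs_le_eta hη t)).deriv x
  support := ⟨13, fun t x hx => (hs _ (abs_le_eta hη t)).fix_far hx⟩

/-- the sum of the squares of the radii -/
noncomputable def sq (s : ℝ) : ℝ := (3 * lA s) ^ 2 + (6 * lR s) ^ 2 + (2 * lB s) ^ 2

lemma sq_rpow {u : ℝ} (hu : 0 ≤ u) (a : ℝ) : (a * u ^ (1 / 3 : ℝ)) ^ 2 = a ^ 2 * u ^ (2 / 3 : ℝ) := by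
  rw [mul_pow, ← Real.rpow_natCast (u ^ (1 / 3 : ℝ)), ← Real.rpow_mul hu]
  norm_num

lemma sq_eq {s : ℝ} (h : |s| < 1) : sq s = 9 * (1 + s * (1 / 27)) ^ (2 / 3 : ℝ) +
    36 * (1 + s * (1 / 216)) ^ (2 / 3 : ℝ) + 4 * (1 + s * (-(1 / 8))) ^ (2 / 3 : ℝ) := by
  have h' := abs_lt.1 h
  rw [sq, lA, lR, lB, sq_rpow (by linarith), sq_rpow (by linarith), sq_rpow (by linarith)]
  rw [show (1 + s / 27 : ℝ) = 1 + s * (1 / 27) by ring,
    show (1 + s / 216 : ℝ) = 1 + s * (1 / 216) by ring,
    show (1 - s / 8 : ℝ) = 1 + s * (-(1 / 8)) by ring]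
  norm_num

lemma hasDeriv_term (η a p t : ℝ) (h : 0 < 1 + η * Real.sin t * a) :
    HasDerivAt (fun t => (1 + η * Real.sin t * a) ^ p)
      (η * Real.cos t * a * p * (1 + η * Real.sin t * a) ^ (p - 1)) t := by
  have h1 : HasDerivAt (fun t => 1 + η * Real.sin t * a) (η * Real.cos t * a) t :=
    (((Real.hasDerivAt_sin t).const_mul η).mul_const a).const_add 1
  exact h1.rpow_const (Or.inl h.ne')

/-- **The theorem.**  There is a cluster of two cells, whose interfaces lie in round spheres and obey
Plateau's laws and the Young-Laplace law, and a volume preserving deformation of it along which the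
area is smooth, with derivative zero and negative second derivative at time zero. -/
theorem result : ∃ Ω : Cluster 2, Ω.Spherical ∧ Ω.Plateau ∧ Ω.YoungLaplace ∧
    ∃ φ : Deformation, Ω.VolumePreserving φ ∧ (∀ t, Ω.area φ t ≠ ⊤) ∧
      ContDiff ℝ ∞ (fun t => (Ω.area φ t).toReal) ∧
      deriv (fun t => (Ω.area φ t).toReal) 0 = 0 ∧
      deriv (deriv fun t => (Ω.area φ t).toReal) 0 < 0 := by
  obtain ⟨η, hη, hs⟩ := exists_small
  have hS : ∀ t, Small (η * Real.sin t) := fun t => hs _ (abs_le_eta hη t)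
  have hlt : ∀ t : ℝ, |η * Real.sin t| < 1 := fun t => (hS t).one
  have p1 : ∀ t : ℝ, 0 < 1 + η * Real.sin t * (1 / 27) := fun t => by
    have := abs_lt.1 (hlt t)
    nlinarith
  have p2 : ∀ t : ℝ, 0 < 1 + η * Real.sin t * (1 / 216) := fun t => by
    have := abs_lt.1 (hlt t)
    nlinarith
  have p3 : ∀ t : ℝ, 0 < 1 + η * Real.sin t * (-(1 / 8)) := fun t => by
    have := abs_lt.1 (hlt t)
    nlinarith
  have harea : ∀ t, Om.area (defo η hη hs) t =
      ENNReal.ofReal (sq (η * Real.sin t)) * A1 := by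
    intro t
    rw [Cluster.area, surface_eq]
    exact area_surf _ (hS t)
  have hpos : ∀ s, 0 ≤ sq s := fun s => by unfold sq; positivity
  set C : ℝ := A1.toReal with hC
  have hCpos : 0 < C := ENNReal.toReal_pos A1_pos.ne' A1_lt.ne
  have hfun : (fun t => (Om.area (defo η hη hs) t).toReal) = fun t =>
      (9 * (1 + η * Real.sin t * (1 / 27)) ^ (2 / 3 : ℝ) +
        36 * (1 + η * Real.sin t * (1 / 216)) ^ (2 / 3 : ℝ) +
        4 * (1 + η * Real.sin t * (-(1 / 8))) ^ (2 / 3 : ℝ)) * C := by
    funext t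
    rw [harea, ENNReal.toReal_mul, ENNReal.toReal_ofReal (hpos _), sq_eq (hlt t)]
  have hd1 : ∀ t, HasDerivAt (fun t =>
      (9 * (1 + η * Real.sin t * (1 / 27)) ^ (2 / 3 : ℝ) +
        36 * (1 + η * Real.sin t * (1 / 216)) ^ (2 / 3 : ℝ) +
        4 * (1 + η * Real.sin t * (-(1 / 8))) ^ (2 / 3 : ℝ)) * C)
      ((2 / 9 * (1 + η * Real.sin t * (1 / 27)) ^ (2 / 3 - 1 : ℝ) +
        1 / 9 * (1 + η * Real.sin t * (1 / 216)) ^ (2 / 3 - 1 : ℝ) -
        1 / 3 * (1 + η * Real.sin t * (-(1 / 8))) ^ (2 / 3 - 1 : ℝ)) * (η * Real.cos t) * C) t := by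
    intro t
    have := ((((hasDeriv_term η (1 / 27) (2 / 3) t (p1 t)).const_mul 9).add
      ((hasDeriv_term η (1 / 216) (2 / 3) t (p2 t)).const_mul 36)).add
      ((hasDeriv_term η (-(1 / 8)) (2 / 3) t (p3 t)).const_mul 4)).mul_const C
    refine this.congr_deriv ?_
    ring
  have hderiv : deriv (fun t => (Om.area (defo η hη hs) t).toReal) = fun t =>
      (2 / 9 * (1 + η * Real.sin t * (1 / 27)) ^ (2 / 3 - 1 : ℝ) +
        1 / 9 * (1 + η * Real.sin t * (1 / 216)) ^ (2 / 3 - 1 : ℝ) -
        1 / 3 * (1 + η * Real.sin t * (-(1 / 8))) ^ (2 / 3 - 1 : ℝ)) * (η * Real.cos t) * C := by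
    rw [hfun]
    funext t
    exact (hd1 t).deriv
  refine ⟨Om, spherical, plateau, youngLaplace, defo η hη hs, ?_, ?_, ?_, ?_, ?_⟩
  · intro t i
    have e0 : ∀ s : Set E3, Psi 0 '' s = s := fun s => by
      rw [show Psi 0 = id from funext Psi_zero, image_id]
    have h0 : Small 0 := by
      have := hS 0
      rwa [Real.sin_zero, mul_zero] at this
    fin_cases i
    · change volume (Psi (η * Real.sin t) '' cA) = volume cA
      have := vol_cA 0 h0
      rw [e0] at this
      rw [vol_cA _ (hS t), this]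
    · change volume (Psi (η * Real.sin t) '' cR) = volume cR
      have := vol_cR 0 h0
      rw [e0] at this
      rw [vol_cR _ (hS t), this]
  · intro t
    rw [harea]
    exact ENNReal.mul_ne_top ENNReal.ofReal_ne_top A1_lt.ne
  · rw [hfun]
    have hσ : ContDiff ℝ ∞ fun t : ℝ => η * Real.sin t := contDiff_const.mul Real.contDiff_sin
    exact ((((contDiff_const.mul (smooth_rpow (1 / 27) (2 / 3) hσ fun t => (p1 t).ne')).add
      (contDiff_const.mul (smooth_rpow (1 / 216) (2 / 3) hσ fun t => (p2 t).ne'))).add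
      (contDiff_const.mul (smooth_rpow (-(1 / 8)) (2 / 3) hσ fun t => (p3 t).ne'))).mul
      contDiff_const)
  · rw [hderiv]
    simp only [Real.sin_zero, mul_zero, zero_mul, add_zero, Real.one_rpow]
    norm_num
  · rw [hderiv]
    have hd2 := (((((hasDeriv_term η (1 / 27) (2 / 3 - 1) 0 (p1 0)).const_mul (2 / 9)).add
      ((hasDeriv_term η (1 / 216) (2 / 3 - 1) 0 (p2 0)).const_mul (1 / 9))).sub
      ((hasDeriv_term η (-(1 / 8)) (2 / 3 - 1) 0 (p3 0)).const_mul (1 / 3))).mul
      ((Real.hasDerivAt_cos 0).const_mul η)).mul_const C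
    have hd3 := hd2.deriv
    refine lt_of_eq_of_lt hd3 ?_
    simp only [Real.sin_zero, Real.cos_zero, mul_zero, zero_mul, add_zero, Real.one_rpow, neg_zero,
      mul_one, mul_neg]
    have h5 : 0 < η * η * C := by positivity
    nlinarith

end Pool.Agent.Results.MP_5bdae7_gt.DisconnectedCellUnstable
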